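import Pool.Agent.helper41.G5.SpecG

/-!
# Project d2 (MP_5823cb_al), row gESZ: the two moments (helper3)
-/

set_option autoImplicit false

open Filter Topology MeasureTheory

namespace Pool.Agent.helper90.DH

open Pool.Agent.helper64.D2

theorem gESZ : gESZ_stmt := by
  intro s f
  have h2 : (0 : ℝ) < 2 ^ s := by positivity
  constructor
  · intro h k
    have e1 : (2 : ℝ) ^ s * (((k : ℝ) + 1 / 2) / 2 ^ s) = (k : ℝ) + 1 / 2 := by field_simp
    have e2 : (2 : ℝ) ^ s * ((k : ℝ) / 2 ^ s) = (k : ℝ) := by field_simp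
    have c1 : ci s (((k : ℝ) + 1 / 2) / 2 ^ s) = k := by
      unfold ci
      rw [e1, Int.floor_eq_iff]
      constructor <;> linarith
    have c2 : ci s ((k : ℝ) / 2 ^ s) = k := by
      unfold ci
      rw [e2, Int.floor_intCast]
    have m1 : mid s (((k : ℝ) + 1 / 2) / 2 ^ s) = ((k : ℝ) + 1 / 2) / 2 ^ s := by
      unfold mid
      rw [c1]
    have m2 : mid s ((k : ℝ) / 2 ^ s) = ((k : ℝ) + 1 / 2) / 2 ^ s := by
      unfold mid
      rw [c2]
    have h1 := h (((k : ℝ) + 1 / 2) / 2 ^ s)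
    unfold Es at h1
    rw [c1, m1, sub_self, mul_zero, zero_mul, add_zero] at h1
    have h3 : ∫ t in cell s k, f t = 0 := (mul_eq_zero.1 h1).resolve_left h2.ne'
    have h4 := h ((k : ℝ) / 2 ^ s)
    unfold Es at h4
    rw [c2, m2, h3, mul_zero, zero_add] at h4
    refine ⟨h3, (mul_eq_zero.1 h4).resolve_left ?_⟩
    have h5 : (k : ℝ) / 2 ^ s - ((k : ℝ) + 1 / 2) / 2 ^ s = - (1 / 2 / 2 ^ s) := by ring
    rw [h5]
    have h6 : (0 : ℝ) < 12 * 2 ^ (3 * s) * (1 / 2 / 2 ^ s) := by positivity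
    rw [mul_neg, neg_eq_zero]
    exact h6.ne'
  · intro h x
    obtain ⟨h1, h3⟩ := h (ci s x)
    unfold Es
    have h4 : mid s x = ((ci s x : ℝ) + 1 / 2) / 2 ^ s := rfl
    rw [h4, h1, h3, mul_zero, mul_zero, add_zero]

end Pool.Agent.helper90.DH
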